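import Pool.Agent.MP_75f689_ag.MultB

set_option autoImplicit false

namespace Pool.Agent.Results.MP_75f689_ag.Multiplicity

/-- For an isolated surface singularity of multiplicity at least `m ≥ 2` the Milnor number `μ`
and the Tjurina number `τ` satisfy `2 μ + 3 (m - 1 choose 2) + 1 ≤ 3 τ`. -/
theorem result :
    ∀ (f : MvPolynomial (Fin 3) ℂ) (m : ℕ), 2 ≤ m →
      (∀ d : Fin 3 →₀ ℕ, d 0 + d 1 + d 2 < m → MvPolynomial.coeff d f = 0) →
      Module.Finite ℂ (MvPowerSeries (Fin 3) ℂ ⧸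
        Ideal.span (Set.range (fun i : Fin 3 =>
          ((MvPolynomial.pderiv i f : MvPolynomial (Fin 3) ℂ) : MvPowerSeries (Fin 3) ℂ)))) →
      2 * Module.finrank ℂ (MvPowerSeries (Fin 3) ℂ ⧸
        Ideal.span (Set.range (fun i : Fin 3 =>
          ((MvPolynomial.pderiv i f : MvPolynomial (Fin 3) ℂ) : MvPowerSeries (Fin 3) ℂ)))) +
        3 * (m - 1).choose 2 + 1 ≤
      3 * Module.finrank ℂ (MvPowerSeries (Fin 3) ℂ ⧸
        Ideal.span (insert ((f : MvPolynomial (Fin 3) ℂ) : MvPowerSeries (Fin 3) ℂ)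
          (Set.range (fun i : Fin 3 =>
            ((MvPolynomial.pderiv i f : MvPolynomial (Fin 3) ℂ) : MvPowerSeries (Fin 3) ℂ))))) := by
  intro f m hm hf hfin
  have e1 : Ideal.span (Set.range (fun i : Fin 3 =>
      ((MvPolynomial.pderiv i f : MvPolynomial (Fin 3) ℂ) : MvPowerSeries (Fin 3) ℂ))) =
      (Ideal.span (Set.range fun i => MvPolynomial.pderiv i f)).map
        Pool.Agent.MP_75f689_ag.toS := by
    rw [Ideal.map_span, ← Set.range_comp]
    rfl
  have e2 : Ideal.span (insert ((f : MvPolynomial (Fin 3) ℂ) : MvPowerSeries (Fin 3) ℂ)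
      (Set.range (fun i : Fin 3 =>
        ((MvPolynomial.pderiv i f : MvPolynomial (Fin 3) ℂ) : MvPowerSeries (Fin 3) ℂ)))) =
      (Ideal.span (Set.range fun i => MvPolynomial.pderiv i f) ⊔ Ideal.span {f}).map
        Pool.Agent.MP_75f689_ag.toS := by
    rw [Ideal.span_insert, e1, Ideal.map_sup, Ideal.map_span _ {f}, Set.image_singleton, sup_comm]
    rfl
  rw [e2]
  rw [e1] at hfin ⊢
  obtain ⟨a, rfl⟩ := Nat.exists_eq_add_of_le' hm
  have h := Pool.Agent.MP_75f689_ag.Mult.main f a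
    ((MvPolynomial.mem_pow_idealOfVars_iff' _ f).mpr fun d hd => hf d (by
      rwa [Finsupp.degree_eq_sum, Fin.sum_univ_three] at hd)) hfin
  have h2 : (a + 1) ^ 3 = a ^ 3 + 6 * (a + 2 - 1).choose 2 + 1 := by
    have h3 := Nat.add_one_mul_choose_eq a 1
    rw [Nat.choose_one_right] at h3
    change (a + 1) ^ 3 = a ^ 3 + 6 * (a + 1).choose (1 + 1) + 1
    nlinarith
  omega

end Pool.Agent.Results.MP_75f689_ag.Multiplicity
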